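import Pool.Agent.L7h89.NH.Stm

/-! Project NH, part AFD. -/

set_option linter.all false
set_option autoImplicit false

namespace Pool.Agent.L7h33.NH

open Polynomial
open scoped LinearAlgebra.Projectivization Matrix Classical
open Pool.Agent.L7h89.NH

theorem s_AFD : Pool.Agent.L7h89.NH.S_AFD := by
  intro F _ h3 B A G hB hA hrel
  have h2 : (2 : F) ≠ 0 := by
    intro h2
    have : (1 : F) = 0 := by linear_combination h3 - h2
    exact one_ne_zero this
  let f : Fin 5 → F := fun i => ((B.equivFin.symm (Fin.castLE hB i) : B) : F)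
  have hfB : ∀ i, f i ∈ B := fun i => (B.equivFin.symm (Fin.castLE hB i)).2
  have hfi : Function.Injective f := by
    intro i j hij
    have h1 := Subtype.ext hij
    have h2 := B.equivFin.symm.injective h1
    exact Fin.castLE_injective hB h2
  have key : ∀ i j : Fin 5, i ≠ j → A (f i) + A (f j) = (G (f i) - G (f j)) * (f i - f j) :=
    fun i j hij => hrel _ (hfB i) _ (hfB j) (fun h => hij (hfi h))
  have ne : ∀ i j : Fin 5, i ≠ j → f i - f j ≠ 0 := by
    intro i j hij h
    exact hij (hfi (sub_eq_zero.mp h))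
  have e01 := key 1 0 (by decide)
  have e02 := key 2 0 (by decide)
  have e03 := key 3 0 (by decide)
  have e04 := key 4 0 (by decide)
  have e12 := key 1 2 (by decide)
  have e13 := key 1 3 (by decide)
  have e14 := key 1 4 (by decide)
  have e23 := key 2 3 (by decide)
  have e24 := key 2 4 (by decide)
  have e34 := key 3 4 (by decide)
  have n34 := ne 3 4 (by decide)
  have n24 := ne 2 4 (by decide)
  have n23 := ne 2 3 (by decide)
  -- g1 x2 = g2 x1
  have k12 : (G (f 1) - G (f 0)) * (f 2 - f 0) = (G (f 2) - G (f 0)) * (f 1 - f 0) := by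
    have : ((G (f 1) - G (f 0)) * (f 2 - f 0) - (G (f 2) - G (f 0)) * (f 1 - f 0))
        * (f 3 - f 4) = 0 := by
      linear_combination (-(f 2 - f 0)) * (e03 - e13 - e04 + e14)
        + (f 1 - f 0) * (e03 - e23 - e04 + e24)
    rcases mul_eq_zero.mp this with h | h
    · exact sub_eq_zero.mp h
    · exact absurd h n34
  have k13 : (G (f 1) - G (f 0)) * (f 3 - f 0) = (G (f 3) - G (f 0)) * (f 1 - f 0) := by
    have : ((G (f 1) - G (f 0)) * (f 3 - f 0) - (G (f 3) - G (f 0)) * (f 1 - f 0))
        * (f 2 - f 4) = 0 := by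
      linear_combination (-(f 3 - f 0)) * (e02 - e12 - e04 + e14)
        + (f 1 - f 0) * (e02 - e23 - e04 + e34)
    rcases mul_eq_zero.mp this with h | h
    · exact sub_eq_zero.mp h
    · exact absurd h n24
  have l12 : 2 * ((G (f 1) - G (f 0)) * (f 2 - f 0)) = 2 * A (f 0) := by
    linear_combination k12 - e01 - e02 + e12
  have l13 : 2 * ((G (f 1) - G (f 0)) * (f 3 - f 0)) = 2 * A (f 0) := by
    linear_combination k13 - e01 - e03 + e13
  have m12 := mul_left_cancel₀ h2 l12
  have m13 := mul_left_cancel₀ h2 l13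
  have hg : (G (f 1) - G (f 0)) * (f 2 - f 3) = 0 := by
    linear_combination m12 - m13
  rcases mul_eq_zero.mp hg with h | h
  · rw [h, zero_mul] at m12
    exact hA _ (hfB 0) m12.symm
  · exact n23 h

end Pool.Agent.L7h33.NH
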