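import Pool.Agent.L7h89.NH.Stm

/-! Project NH, part AFG. -/

set_option linter.all false
set_option autoImplicit false

namespace Pool.Agent.L7h33.NH

open Polynomial
open scoped LinearAlgebra.Projectivization Matrix Classical
open Pool.Agent.L7h89.NH

theorem afg_T {F : Type} [Field F] (h3 : (3 : F) = 0) (e e' : F)
    (he : e ∈ ({0, 1, -1} : Finset F)) (he' : e' ∈ ({0, 1, -1} : Finset F)) :
    e - e' = 0 ∨ e - e' = 1 ∨ e - e' = -1 := by
  simp only [Finset.mem_insert, Finset.mem_singleton] at he he'
  rcases he with rfl | rfl | rfl <;> rcases he' with rfl | rfl | rfl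
  · left; ring
  · right; right; ring
  · right; left; ring
  · right; left; ring
  · left; ring
  · right; right; linear_combination h3
  · right; right; ring
  · right; left; linear_combination -h3
  · left; ring

theorem s_AFG : Pool.Agent.L7h89.NH.S_AFG := by
  intro F _ _ S B b c hS hq a a' g haa ha ha' hg hne
  obtain ⟨h3, hcard, hB2, hB5, hfib, hfib2, hN⟩ := hS
  have h2 : (2 : F) ≠ 0 := by
    intro h2
    have : (1 : F) = 0 := by linear_combination h3 - h2
    exact one_ne_zero this
  obtain ⟨s, hs⟩ := hne
  have hs' : s ∈ S ∧ s.1 = g := by simpa [fib] using hs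
  obtain ⟨hca, hfa⟩ := hfib a ha
  obtain ⟨hca', hfa'⟩ := hfib a' ha'
  have hga : g ≠ a := by rintro rfl; exact hg ha
  have hga' : g ≠ a' := by rintro rfl; exact hg ha'
  have hT : (({0, 1, -1} : Finset F)).card = 3 := by
    rw [Finset.card_eq_three]
    refine ⟨0, 1, -1, zero_ne_one, ?_, ?_, rfl⟩
    · intro h; exact one_ne_zero (by linear_combination h : (1 : F) = 0)
    · intro h; exact h2 (by linear_combination h)
  have hP : (a' - g) * c a ≠ 0 := mul_ne_zero (sub_ne_zero.mpr hga'.symm) hca
  have hQ : (g - a) * c a' ≠ 0 := mul_ne_zero (sub_ne_zero.mpr hga) hca'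
  by_cases hinj : Set.InjOn (fun p : F × F => p.1 * ((a' - g) * c a) + p.2 * ((g - a) * c a'))
      ((({0, 1, -1} : Finset F) ×ˢ ({0, 1, -1} : Finset F) : Finset (F × F)) : Set (F × F))
  · exfalso
    have hc := Finset.card_image_of_injOn hinj
    rw [Finset.card_product, hT] at hc
    have huniv : Finset.image (fun p : F × F => p.1 * ((a' - g) * c a) + p.2 * ((g - a) * c a'))
        (({0, 1, -1} : Finset F) ×ˢ ({0, 1, -1} : Finset F)) = Finset.univ := by
      rw [← Finset.card_eq_iff_eq_univ, hc, hq]
    have hmem := Finset.mem_univ (s.2 * (a' - a) - (a' - g) * b a - (g - a) * b a')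
    rw [← huniv, Finset.mem_image] at hmem
    obtain ⟨⟨e, d⟩, hed, heq⟩ := hmem
    rw [Finset.mem_product] at hed
    obtain ⟨he, hd⟩ := hed
    simp only at he hd heq
    have hx : ((a, b a + e * c a) : F × F) ∈ S := by
      have : ((a, b a + e * c a) : F × F) ∈ fib S a := by
        rw [hfa]
        simp only [Finset.mem_insert, Finset.mem_singleton] at he ⊢
        rcases he with rfl | rfl | rfl
        · left; simp
        · right; left; simp
        · right; right; simp [sub_eq_add_neg]
      exact (Finset.mem_filter.mp this).1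
    have hy : ((a', b a' + d * c a') : F × F) ∈ S := by
      have : ((a', b a' + d * c a') : F × F) ∈ fib S a' := by
        rw [hfa']
        simp only [Finset.mem_insert, Finset.mem_singleton] at hd ⊢
        rcases hd with rfl | rfl | rfl
        · left; simp
        · right; left; simp
        · right; right; simp [sub_eq_add_neg]
      exact (Finset.mem_filter.mp this).1
    refine hN _ hx _ hy s hs'.1 haa ?_ ?_ ?_
    · intro h; exact hga (by rw [← hs'.2, h])
    · intro h; exact hga' (by rw [← hs'.2, h])
    · simp only [hs'.2]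
      linear_combination -heq
  · rw [Set.InjOn] at hinj
    push Not at hinj
    obtain ⟨⟨e, d⟩, h1, ⟨e', d'⟩, h1', heq, hneq⟩ := hinj
    rw [Finset.mem_coe, Finset.mem_product] at h1 h1'
    simp only at h1 h1' heq
    have hx := afg_T h3 e e' h1.1 h1'.1
    have hy := afg_T h3 d d' h1.2 h1'.2
    have hxy : (e - e') * ((a' - g) * c a) + (d - d') * ((g - a) * c a') = 0 := by
      linear_combination heq
    rcases hx with hx | hx | hx <;> rcases hy with hy | hy | hy
    · exfalso; apply hneq
      rw [sub_eq_zero.mp hx, sub_eq_zero.mp hy]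
    · exfalso; rw [hx, hy] at hxy; exact hQ (by linear_combination hxy)
    · exfalso; rw [hx, hy] at hxy; exact hQ (by linear_combination -hxy)
    · exfalso; rw [hx, hy] at hxy; exact hP (by linear_combination hxy)
    · right; rw [hx, hy] at hxy; linear_combination hxy
    · left; rw [hx, hy] at hxy; linear_combination hxy
    · exfalso; rw [hx, hy] at hxy; exact hP (by linear_combination -hxy)
    · left; rw [hx, hy] at hxy; linear_combination -hxy
    · right; rw [hx, hy] at hxy; linear_combination -hxy

end Pool.Agent.L7h33.NH
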