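import Pool.Agent.L7h89.NH.Stm

/-! Project NH, part AFH. -/

set_option linter.all false
set_option autoImplicit false

namespace Pool.Agent.L7h33.NH

open Polynomial
open scoped LinearAlgebra.Projectivization Matrix Classical
open Pool.Agent.L7h89.NH

theorem afh_fibprod {F : Type} [Field F] (S : Finset (F × F)) (a x : F) :
    ∏ s ∈ fib S x, (s.1 - a) = (x - a) ^ (fib S x).card := by
  rw [← Finset.prod_const]
  refine Finset.prod_congr rfl ?_
  intro s hs
  have : s.1 = x := (Finset.mem_filter.mp hs).2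
  rw [this]

theorem afh_disj {F : Type} [Field F] (S : Finset (F × F)) (x y : F) (h : x ≠ y) :
    Disjoint (fib S x) (fib S y) := by
  rw [Finset.disjoint_left]
  intro s hs hs'
  exact h ((Finset.mem_filter.mp hs).2.symm.trans (Finset.mem_filter.mp hs').2)

theorem afh_prod {F : Type} [Field F] (S : Finset (F × F)) (a x y z : F)
    (hax : a ≠ x) (hay : a ≠ y) (haz : a ≠ z) (hxy : x ≠ y) (hxz : x ≠ z) (hyz : y ≠ z)
    (hc : (fib S a).card + (fib S x).card + (fib S y).card + (fib S z).card = S.card) :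
    ∏ s ∈ S.filter (fun s => s.1 ≠ a), (s.1 - a)
      = (x - a) ^ (fib S x).card * (y - a) ^ (fib S y).card * (z - a) ^ (fib S z).card := by
  have hsub : (fib S x ∪ fib S y) ∪ fib S z ⊆ S.filter (fun s => s.1 ≠ a) := by
    intro s hs
    simp only [Finset.mem_union, fib, Finset.mem_filter] at hs ⊢
    rcases hs with (hs | hs) | hs
    · exact ⟨hs.1, by rw [hs.2]; exact hax.symm⟩
    · exact ⟨hs.1, by rw [hs.2]; exact hay.symm⟩
    · exact ⟨hs.1, by rw [hs.2]; exact haz.symm⟩
  have hd1 := afh_disj S x y hxy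
  have hd2 : Disjoint (fib S x ∪ fib S y) (fib S z) := by
    rw [Finset.disjoint_union_left]
    exact ⟨afh_disj S x z hxz, afh_disj S y z hyz⟩
  have hcu : ((fib S x ∪ fib S y) ∪ fib S z).card
      = (fib S x).card + (fib S y).card + (fib S z).card := by
    rw [Finset.card_union_of_disjoint hd2, Finset.card_union_of_disjoint hd1]
  have hcf := Finset.card_filter_add_card_filter_not (s := S) (fun s => s.1 = a)
  have heq : (fib S x ∪ fib S y) ∪ fib S z = S.filter (fun s => s.1 ≠ a) := by
    refine Finset.eq_of_subset_of_card_le hsub ?_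
    rw [hcu]
    have : (S.filter (fun s => s.1 = a)).card = (fib S a).card := rfl
    have h' : (S.filter (fun s => ¬ s.1 = a)).card = (S.filter (fun s => s.1 ≠ a)).card := rfl
    omega
  rw [← heq, Finset.prod_union hd2, Finset.prod_union hd1, afh_fibprod, afh_fibprod, afh_fibprod]

theorem afh_three {F : Type} [Field F] (h2 : (2 : F) ≠ 0) (a b c : F) (hc : c ≠ 0) :
    (({(a, b), (a, b + c), (a, b - c)} : Finset (F × F))).card = 3 := by
  rw [Finset.card_eq_three]
  refine ⟨_, _, _, ?_, ?_, ?_, rfl⟩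
  · intro h
    rw [Prod.mk.injEq] at h
    exact hc (by linear_combination -h.2)
  · intro h
    rw [Prod.mk.injEq] at h
    exact hc (by linear_combination h.2)
  · intro h
    rw [Prod.mk.injEq] at h
    have : 2 * c = 0 := by linear_combination h.2
    rcases mul_eq_zero.mp this with h' | h'
    · exact h2 h'
    · exact hc h'

theorem s_AFH (h1 : Pool.Agent.L7h89.NH.S_AFE) (h2 : Pool.Agent.L7h89.NH.S_AFF)
    (h3 : Pool.Agent.L7h89.NH.S_AFG) : Pool.Agent.L7h89.NH.S_AFH := by
  intro F _ _ S B b c hS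
  obtain ⟨hq, a, a', g, g', haa, hB, hgg, hg, hg', hcg, hcg'⟩ := h2 F S B b c hS
  obtain ⟨u, v, hAl, -, hE2, hE3⟩ := h1 F S B b c hS
  have haB : a ∈ B := by rw [hB]; simp
  have ha'B : a' ∈ B := by rw [hB]; simp
  have hgn : (fib S g).Nonempty := by rw [← Finset.card_pos]; omega
  have hgn' : (fib S g').Nonempty := by rw [← Finset.card_pos]; omega
  have hG1 := h3 F S B b c hS hq a a' g haa haB ha'B hg hgn
  have hG2 := h3 F S B b c hS hq a a' g' haa haB ha'B hg' hgn'
  obtain ⟨s, hs⟩ := hgn
  obtain ⟨s', hs'⟩ := hgn'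
  have hs2 : s ∈ S ∧ s.1 = g := by simpa [fib] using hs
  have hs2' : s' ∈ S ∧ s'.1 = g' := by simpa [fib] using hs'
  have e1 := hE3 a haB s hs2.1 (by rw [hs2.2]; exact hg)
  have e2 := hE3 a haB s' hs2'.1 (by rw [hs2'.2]; exact hg')
  rw [hs2.2] at e1
  rw [hs2'.2] at e2
  have e3 := hE2 a haB a' ha'B haa
  have hAa := hAl a haB
  have hAa' := hAl a' ha'B
  obtain ⟨h30, hcard, hB2, hB5, hfib, hfib2, hN⟩ := hS
  have h20 : (2 : F) ≠ 0 := by
    intro h2
    have : (1 : F) = 0 := by linear_combination h30 - h2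
    exact one_ne_zero this
  obtain ⟨hca, hfa⟩ := hfib a haB
  obtain ⟨hca', hfa'⟩ := hfib a' ha'B
  have hga : g ≠ a := by rintro rfl; exact hg haB
  have hga' : g ≠ a' := by rintro rfl; exact hg ha'B
  have hg'a : g' ≠ a := by rintro rfl; exact hg' haB
  have hg'a' : g' ≠ a' := by rintro rfl; exact hg' ha'B
  have hc3 : (fib S a).card = 3 := by rw [hfa]; exact afh_three h20 _ _ _ hca
  have hc3' : (fib S a').card = 3 := by rw [hfa']; exact afh_three h20 _ _ _ hca'
  have hPa := afh_prod S a a' g g' haa hga.symm hg'a.symm hga'.symm hg'a'.symm hgg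
    (by rw [hc3, hc3', hcg, hcg', hcard, hq])
  have hPa' := afh_prod S a' a g g' haa.symm hga'.symm hg'a'.symm hga.symm hg'a.symm hgg
    (by rw [hc3, hc3', hcg, hcg', hcard, hq])
  rw [hc3', hcg, hcg'] at hPa
  rw [hc3, hcg, hcg'] at hPa'
  have hA1 : Al S c a = -1 / (c a ^ 2 * ((a' - a) ^ 3 * (g - a) ^ 2 * (g' - a) ^ 2)) := by
    unfold Al; rw [hPa]
  have hA2 : Al S c a' = -1 / (c a' ^ 2 * ((a - a') ^ 3 * (g - a') ^ 2 * (g' - a') ^ 2)) := by
    unfold Al; rw [hPa']
  have n1 : g - a ≠ 0 := sub_ne_zero.mpr hga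
  have n2 : g' - a ≠ 0 := sub_ne_zero.mpr hg'a
  have n3 : g - a' ≠ 0 := sub_ne_zero.mpr hga'
  have n4 : g' - a' ≠ 0 := sub_ne_zero.mpr hg'a'
  have n5 : a' - a ≠ 0 := sub_ne_zero.mpr haa.symm
  have n5' : a - a' ≠ 0 := sub_ne_zero.mpr haa
  have n6 : g - g' ≠ 0 := sub_ne_zero.mpr hgg
  -- G' c^2 = - G c'^2
  have hGG : ((g - a') * (g' - a')) * c a ^ 2 = - (((g - a) * (g' - a)) * c a' ^ 2) := by
    rcases hG1 with h | h <;> rcases hG2 with h' | h'
    · exfalso
      have : (g - g') * (c a + c a') = 0 := by linear_combination h' - h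
      have hcc : c a + c a' = 0 := (mul_eq_zero.mp this).resolve_left n6
      have : (a' - a) * c a = 0 := by linear_combination h + (g - a) * hcc
      exact (mul_ne_zero n5 hca) this
    · have := congrArg₂ (fun x y => x * y) h h'
      linear_combination this
    · have := congrArg₂ (fun x y => x * y) h h'
      linear_combination this
    · exfalso
      have : (g - g') * (c a - c a') = 0 := by linear_combination h' - h
      have hcc : c a - c a' = 0 := (mul_eq_zero.mp this).resolve_left n6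
      have : (a' - a) * c a = 0 := by linear_combination h + (g - a) * hcc
      exact (mul_ne_zero n5 hca) this
  -- u
  have hu : u a = - v a * ((g - a) + (g' - a)) := by
    have : (g - g') * (u a + v a * ((g - a) + (g' - a))) = 0 := by
      linear_combination e2 - e1
    have := (mul_eq_zero.mp this).resolve_left n6
    linear_combination this
  have hv1 : Al S c a * c a ^ 2 = - v a * ((g - a) * (g' - a)) := by
    rw [hu] at e1
    linear_combination e1
  have hv2 : Al S c a' * c a ^ 2 = v a * ((g - a') * (g' - a')) := by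
    rw [hu] at e3
    linear_combination e3 - hv1
  have hAG : Al S c a * ((g - a') * (g' - a')) = - Al S c a' * ((g - a) * (g' - a)) := by
    have : c a ^ 2 * (Al S c a * ((g - a') * (g' - a')))
        = c a ^ 2 * (- Al S c a' * ((g - a) * (g' - a))) := by
      linear_combination ((g - a') * (g' - a')) * hv1 + ((g - a) * (g' - a)) * hv2
    exact mul_left_cancel₀ (pow_ne_zero 2 hca) this
  rw [hA1, hA2] at hAG
  have hcube : c a' ^ 2 * ((g - a') * (g' - a')) ^ 3 = c a ^ 2 * ((g - a) * (g' - a)) ^ 3 := by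
    rw [show (a - a') = -(a' - a) by ring] at hAG
    field_simp at hAG
    linear_combination -hAG
  have h8 : c a ^ 8 = 1 := by
    have := FiniteField.pow_card_sub_one_eq_one (c a) hca
    rwa [hq] at this
  have h8' : c a' ^ 8 = 1 := by
    have := FiniteField.pow_card_sub_one_eq_one (c a') hca'
    rwa [hq] at this
  have hfin : ((g - a) * (g' - a)) ^ 3 * (c a ^ 8 + c a' ^ 8) = 0 := by
    have h6 : ((g - a') * (g' - a')) ^ 3 * c a ^ 6 = - (((g - a) * (g' - a)) ^ 3 * c a' ^ 6) := by
      have := congrArg (fun x => x ^ 3) hGG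
      linear_combination this
    linear_combination c a' ^ 2 * h6 - c a ^ 6 * hcube
  have hG0 : ((g - a) * (g' - a)) ^ 3 ≠ 0 := pow_ne_zero 3 (mul_ne_zero n1 n2)
  have := (mul_eq_zero.mp hfin).resolve_left hG0
  rw [h8, h8'] at this
  exact h20 (by linear_combination this)

end Pool.Agent.L7h33.NH
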